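import Pool.Agent.Q286.XG.Stm

/-! # Project EXG: trial functions concentrated at one point of the line, L-functions -/

set_option autoImplicit false
set_option maxHeartbeats 2000000

open Complex Filter Topology Set MeasureTheory Metric
open scoped ComplexConjugate Convolution

namespace Pool.Agent.Q214.XG

open Pool.Agent
open Pool.Agent.Y23 (TT N2 Fa kap kap_bound Fa_kap TT_mul_exp TT_smul)
open Pool.Agent.Y23.G

variable [L : Y23.G.LFun]

/-- the function without the zero -/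
lemma nozero_fun {A : ℝ} (hA : 0 ≤ A) (hb : ∀ w : ℂ, ‖L.X (1 / 2 + w)‖ ≤ Real.exp (Ex A |w.re|) / (1 + w.im ^ 2))
    (w0 : ℂ) : ∃ (H : ℂ → ℂ) (K : ℝ), Differentiable ℂ H ∧ 0 < K ∧
    (∀ w, ‖H w‖ ≤ K * Real.exp (Ex A |w.re|) / (1 + w.im ^ 2)) ∧ (∀ w, w ≠ w0 → L.X (1 / 2 + w) = 0 → H w = 0) ∧
    H w0 ≠ 0 := by
  obtain ⟨H, hHd, hG0, hrel⟩ := factor_zero (L := L) (w0 := w0)
  set k := H370.mult L.X (1 / 2 + w0) with hk
  obtain ⟨M0, hM0⟩ := (isCompact_closedBall w0 1).exists_bound_of_continuousOn hHd.continuous.continuousOn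
  set R : ℝ := ‖w0‖ + 1 with hR
  have hR0 : 0 < R := by positivity
  set q : ℝ := Real.exp (A - L.m / 2 * (1 + R * |kp|)) / (1 + R ^ 2) with hq
  have hq0 : 0 < q := by positivity
  refine ⟨H, max 1 (|M0| / q), hHd, by positivity, fun w => ?_, fun w h hw => ?_, hG0⟩
  · rcases le_total 1 ‖w - w0‖ with h | h
    · have h1 : ‖H w‖ ≤ ‖L.X (1 / 2 + w)‖ := by
        have h5 : ‖L.X (1 / 2 + w)‖ = ‖w - w0‖ ^ k * ‖H w‖ := by rw [hrel w, norm_mul, norm_pow]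
        rw [h5]
        have := one_le_pow₀ h (n := k)
        have := norm_nonneg (H w)
        nlinarith
      refine (h1.trans (hb w)).trans ?_
      refine div_le_div_of_nonneg_right ?_ (by positivity)
      have := le_max_left 1 (|M0| / q)
      have := Real.exp_pos (Ex A |w.re|)
      nlinarith
    · have h1 := hM0 w (by rw [mem_closedBall, dist_eq_norm]; exact h)
      have hwn : ‖w‖ ≤ R := by
        have : w = (w - w0) + w0 := by ring
        rw [this]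
        exact (norm_add_le _ _).trans (by linarith)
      have hre : |w.re| ≤ R := (Complex.abs_re_le_norm w).trans hwn
      have him : w.im ^ 2 ≤ R ^ 2 := by
        rw [← sq_abs]
        exact pow_le_pow_left₀ (abs_nonneg _) ((Complex.abs_im_le_norm w).trans hwn) 2
      have h2 := Ex_low (L := L) hA (abs_nonneg w.re) hre
      have h3 : q ≤ Real.exp (Ex A |w.re|) / (1 + w.im ^ 2) := by
        rw [hq]
        gcongr
      calc ‖H w‖ ≤ |M0| := h1.trans (le_abs_self _)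
        _ = |M0| / q * q := by field_simp
        _ ≤ max 1 (|M0| / q) * (Real.exp (Ex A |w.re|) / (1 + w.im ^ 2)) := by
            gcongr
            exact le_max_right _ _
        _ = _ := by ring
  · have h1 := hrel w
    rw [hw] at h1
    rcases mul_eq_zero.1 h1.symm with h2 | h2
    · exact absurd h2 (pow_ne_zero _ (sub_ne_zero.2 h))
    · exact h2

lemma tsum_single (w1 : ℂ) : Summable (fun ρ : Zt => if (ρ : ℂ) = 1 / 2 + w1 then ((Q286.XG.mc (1 / 2 + w1) : ℕ) : ℝ) else 0) ∧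
    ∑' ρ : Zt, (if (ρ : ℂ) = 1 / 2 + w1 then ((Q286.XG.mc (1 / 2 + w1) : ℕ) : ℝ) else 0) ≤ (Q286.XG.mc (1 / 2 + w1) : ℝ) := by
  classical
  by_cases h : (1 / 2 + w1) ∈ (zd (L := L)).Zs
  · set z : Zt := ⟨1 / 2 + w1, h⟩ with hz
    have e : (fun ρ : Zt => if (ρ : ℂ) = 1 / 2 + w1 then ((Q286.XG.mc (1 / 2 + w1) : ℕ) : ℝ) else 0) =
        fun ρ : Zt => if ρ = z then ((Q286.XG.mc (1 / 2 + w1) : ℕ) : ℝ) else 0 := by
      funext ρ
      have : ((ρ : ℂ) = 1 / 2 + w1) ↔ ρ = z := by rw [hz, Subtype.ext_iff]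
      simp only [this]
    have h1 := hasSum_ite_eq z ((Q286.XG.mc (1 / 2 + w1) : ℕ) : ℝ)
    rw [e]
    exact ⟨h1.summable, h1.tsum_eq.le⟩
  · have e : (fun ρ : Zt => if (ρ : ℂ) = 1 / 2 + w1 then ((Q286.XG.mc (1 / 2 + w1) : ℕ) : ℝ) else 0) =
        fun ρ : Zt => (0 : ℝ) := by
      funext ρ
      rw [if_neg]
      intro h2
      exact h (h2 ▸ ρ.2)
    rw [e]
    exact ⟨summable_zero, by rw [tsum_zero]; positivity⟩

theorem rateL (w1 : ℂ) (hw1 : w1.re = 0) {c : ℝ} (hc : c < 2 * cc (L := L)) : ∃ C : ℝ, ∀ᶠ a : ℝ in atTop, ∃ G : ℝ → ℂ,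
    Y23.G.Hd a G ∧ Y23.TT G w1 = 1 ∧ ‖Y23.TT G 0‖ ≤ C ∧
    Y23.G.SS G ≤ (Q286.XG.mc (1 / 2 + w1) : ℝ) + Real.exp (-(c * Real.exp (2 * a / L.m))) := by
  obtain ⟨η, hη, hcη⟩ := exists_eta' (L := L) (c := c / 2) (by linarith)
  have hη2 : 0 < η / 2 := by positivity
  obtain ⟨A, hA, hXb⟩ := X_all (L := L)
  obtain ⟨H, K, hH, hK, hHb, hHz, hH0⟩ := nozero_fun hA hXb w1
  obtain ⟨B, C, hB, hC, hcut⟩ := cut (L := L) hA hK hH hHb (R := 1) zero_le_one
  obtain ⟨Ck, hCk, hkb⟩ := kap_bound hη2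
  set Z : ℝ := ∑' ρ : Zt, (mu ρ : ℝ) * (1 / (1 + ((ρ : ℂ).im - w1.im) ^ 2)) with hZ
  have hZ0 : 0 ≤ Z := tsum_nonneg fun ρ => by positivity
  have hk0 := TT_kap_zero hη2
  have hp : 0 < ‖H w1‖ := norm_pos_iff.2 hH0
  have hp2 : 0 < ‖TT (kap (η / 2)) 0‖ := norm_pos_iff.2 hk0
  obtain ⟨A1, hA1, hlim⟩ := tau_lim (L := L) (B := B) (C := C * (2 / ‖H w1‖)) (c := 0) (η := η) hB (by positivity)
    (by have := cc_pos (L := L); positivity)
  set c1 : ℝ := ‖H w1‖ / 2 * ‖TT (kap (η / 2)) 0‖ with hc1d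
  have hc1 : 0 < c1 := by positivity
  set D : ℝ := C ^ 2 * Ck ^ 2 * Z / c1 ^ 2 + 1 with hD
  have hD0 : 0 < D := by positivity
  obtain ⟨A2, hA2, hlim2⟩ := tau_lim (L := L) (B := B) (C := Real.sqrt D) (c := c / 2) (η := η)
    hB (by positivity) hcη
  refine ⟨(‖H 0‖ + ‖H w1‖ / 2) * Ck / c1, ?_⟩
  filter_upwards [eventually_ge_atTop (max (max A1 A2) (η + 1))] with a ha
  have haA : A1 ≤ a := le_of_max_le_left (le_of_max_le_left ha)
  have haA2 : A2 ≤ a := le_of_max_le_right (le_of_max_le_left ha)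
  have haη : η + 1 ≤ a := le_of_max_le_right ha
  have ha0 : 0 < a := by linarith
  obtain ⟨f, hf, hfb⟩ := hcut (a - η) (by linarith)
  set τ := Real.exp (B * (1 + a) - cc * Real.exp (2 * (a - η) / L.m)) with hτ
  have hτ0 : 0 < τ := Real.exp_pos _
  have hfb' : ∀ w : ℂ, |w.re| ≤ 1 → ‖TT f w - H w‖ ≤ C * τ := by
    intro w hw
    refine (hfb w hw).trans (mul_le_mul_of_nonneg_left (Real.exp_le_exp.2 ?_) hC.le)
    nlinarith
  have h8 := hlim a haA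
  rw [zero_mul, neg_zero, Real.exp_zero] at h8
  have h9 : C * τ ≤ ‖H w1‖ / 2 := by
    have e : C * (2 / ‖H w1‖) * τ = C * τ / (‖H w1‖ / 2) := by field_simp
    rw [e, div_le_one (by positivity)] at h8
    exact h8
  -- the kernel
  set κ : ℝ → ℂ := fun x => kap (η / 2) x * cexp (-w1 * x) with hκ
  have hκF : Fa η κ := by
    have := (Fa_kap hη2).mul_bdd (g := fun x : ℝ => cexp (-w1 * x)) (by fun_prop)
    rwa [show 2 * (η / 2) = η by ring] at this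
  have hκT : ∀ w, TT κ w = TT (kap (η / 2)) (-w1 + w) := fun w => TT_mul_exp _ _ _
  have hκb : ∀ x, ‖κ x‖ ≤ 3 := by
    intro x
    simp only [hκ]
    rw [norm_mul, Complex.norm_exp]
    have : (-w1 * (x : ℂ)).re = 0 := by
      rw [Complex.re_mul_ofReal, Complex.neg_re, hw1]; ring
    rw [this, Real.exp_zero, mul_one]
    exact kap_bdd hη2 x
  obtain ⟨g, hg, hgT⟩ := conv_TT hf hκF hκb
  rw [sub_add_cancel] at hg
  have hval1 : c1 ≤ ‖TT g w1‖ := by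
    have h5 : TT κ w1 = TT (kap (η / 2)) 0 := by rw [hκT, neg_add_cancel]
    rw [hgT, norm_mul, h5]
    refine mul_le_mul_of_nonneg_right ?_ hp2.le
    have h6 := hfb' w1 (by rw [hw1, abs_zero]; exact zero_le_one)
    have h10 : ‖H w1‖ ≤ ‖TT f w1‖ + ‖TT f w1 - H w1‖ := by
      have e : H w1 = TT f w1 - (TT f w1 - H w1) := by ring
      calc ‖H w1‖ = ‖TT f w1 - (TT f w1 - H w1)‖ := by rw [← e]
        _ ≤ _ := norm_sub_le _ _
    linarith
  have hg1 : 0 < ‖TT g w1‖ := hc1.trans_le hval1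
  have hg1' : TT g w1 ≠ 0 := norm_pos_iff.1 hg1
  set G : ℝ → ℂ := fun x => (TT g w1)⁻¹ * g x with hG
  have hGF : Fa a G := hg.smul _
  have hGT : ∀ w, TT G w = (TT g w1)⁻¹ * TT g w := fun w => TT_smul _ _ _
  have hGT1 : TT G w1 = 1 := by rw [hGT, inv_mul_cancel₀ hg1']
  have hGn : ∀ w, ‖TT G w‖ ≤ ‖TT g w‖ / c1 := by
    intro w
    rw [hGT, norm_mul, norm_inv, inv_mul_eq_div]
    exact div_le_div_of_nonneg_left (norm_nonneg _) hc1 hval1
  have hκ2 : ∀ w : ℂ, |w.re| ≤ 1 → ‖TT κ w‖ ≤ Ck / (1 + (w.im - w1.im) ^ 2) := by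
    intro w hre
    rw [hκT]
    have h3 := hkb (-w1 + w) (by rw [Complex.add_re, Complex.neg_re, hw1, neg_zero, zero_add]; exact hre)
    have h4 : (-w1 + w).im = w.im - w1.im := by simp; ring
    rwa [h4] at h3
  -- values at the zeros
  have hval : ∀ ρ : Zt, (mu ρ : ℝ) * ‖TT G ((ρ : ℂ) - 1 / 2)‖ ^ 2 ≤
      (if (ρ : ℂ) = 1 / 2 + w1 then ((Q286.XG.mc (1 / 2 + w1) : ℕ) : ℝ) else 0) +
      (C ^ 2 * Ck ^ 2 * τ ^ 2 / c1 ^ 2) * ((mu ρ : ℝ) * (1 / (1 + ((ρ : ℂ).im - w1.im) ^ 2))) := by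
    intro ρ
    by_cases hρ : (ρ : ℂ) = 1 / 2 + w1
    · rw [if_pos hρ, hρ, add_sub_cancel_left, hGT1, norm_one, one_pow, mul_one]
      have h1 : Q286.XG.mc (1 / 2 + w1) = mu (1 / 2 + w1) := by
        unfold Q286.XG.mc
        rw [if_pos (hρ ▸ ρ.2)]
        rfl
      rw [h1]
      have : 0 ≤ (C ^ 2 * Ck ^ 2 * τ ^ 2 / c1 ^ 2) * ((mu (1 / 2 + w1) : ℝ) * (1 / (1 + ((1 / 2 + w1).im - w1.im) ^ 2))) := by
        positivity
      linarith
    rw [if_neg hρ, zero_add]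
    set w := (ρ : ℂ) - 1 / 2 with hw
    have hwne : w ≠ w1 := by
      intro h
      apply hρ
      rw [← h, hw]; ring
    have hre : |w.re| ≤ 1 := half_re ρ
    have hX : L.X (1 / 2 + w) = 0 := by
      rw [hw, add_sub_cancel]
      exact ρ.2
    have h1 : ‖TT f w‖ ≤ C * τ := by
      have := hfb' w hre
      rwa [hHz w hwne hX, sub_zero] at this
    have h2 : ‖TT κ w‖ ≤ Ck / (1 + ((ρ : ℂ).im - w1.im) ^ 2) := by
      have := hκ2 w hre
      have h4 : w.im = (ρ : ℂ).im := by rw [hw]; simp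
      rwa [h4] at this
    have h3 : ‖TT g w‖ ≤ (C * τ) * (Ck / (1 + ((ρ : ℂ).im - w1.im) ^ 2)) := by
      rw [hgT, norm_mul]
      exact mul_le_mul h1 h2 (norm_nonneg _) (by positivity)
    have h3' : ‖TT G w‖ ≤ (C * τ) * (Ck / (1 + ((ρ : ℂ).im - w1.im) ^ 2)) / c1 :=
      (hGn w).trans (div_le_div_of_nonneg_right h3 hc1.le)
    have h4 : ‖TT G w‖ ^ 2 ≤ (C ^ 2 * Ck ^ 2 * τ ^ 2 / c1 ^ 2) * (1 / (1 + ((ρ : ℂ).im - w1.im) ^ 2)) := by
      set d := 1 + ((ρ : ℂ).im - w1.im) ^ 2 with hd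
      have hd1 : 1 ≤ d := by rw [hd]; nlinarith [sq_nonneg ((ρ : ℂ).im - w1.im)]
      calc ‖TT G w‖ ^ 2 ≤ ((C * τ) * (Ck / d) / c1) ^ 2 := pow_le_pow_left₀ (norm_nonneg _) h3' 2
        _ = (C ^ 2 * Ck ^ 2 * τ ^ 2 / c1 ^ 2) * (1 / d ^ 2) := by field_simp
        _ ≤ (C ^ 2 * Ck ^ 2 * τ ^ 2 / c1 ^ 2) * (1 / d) := by
            refine mul_le_mul_of_nonneg_left ?_ (by positivity)
            exact one_div_le_one_div_of_le (by positivity) (by nlinarith)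
    calc _ ≤ (mu ρ : ℝ) * ((C ^ 2 * Ck ^ 2 * τ ^ 2 / c1 ^ 2) * (1 / (1 + ((ρ : ℂ).im - w1.im) ^ 2))) :=
          mul_le_mul_of_nonneg_left h4 (Nat.cast_nonneg _)
      _ = _ := by ring
  obtain ⟨hs1, hs2⟩ := tsum_single (L := L) w1
  have hs3 := (zsummable w1.im).mul_left (C ^ 2 * Ck ^ 2 * τ ^ 2 / c1 ^ 2)
  have hdom : Dom G := Summable.of_nonneg_of_le (fun ρ => by positivity) hval (hs1.add hs3)
  refine ⟨G, (Hd_iff ha0 G).2 ⟨hGF, hdom⟩, hGT1, ?_, ?_⟩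
  · refine (hGn 0).trans (div_le_div_of_nonneg_right ?_ hc1.le)
    rw [hgT, norm_mul]
    have h1 : ‖TT κ 0‖ ≤ Ck := by
      refine (hκ2 0 (by simp)).trans ?_
      exact div_le_self hCk.le (by nlinarith [sq_nonneg ((0 : ℂ).im - w1.im)])
    have h2 : ‖TT f 0‖ ≤ ‖H 0‖ + ‖H w1‖ / 2 := by
      have h6 := hfb' 0 (by simp)
      have h10 : ‖TT f 0‖ ≤ ‖H 0‖ + ‖TT f 0 - H 0‖ := by
        have e : TT f 0 = H 0 + (TT f 0 - H 0) := by ring
        calc ‖TT f 0‖ = ‖H 0 + (TT f 0 - H 0)‖ := by rw [← e]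
          _ ≤ _ := norm_add_le _ _
      linarith
    exact mul_le_mul h2 h1 (norm_nonneg _) (by positivity)
  · have h8 : SS G ≤ (Q286.XG.mc (1 / 2 + w1) : ℝ) + (C ^ 2 * Ck ^ 2 * τ ^ 2 / c1 ^ 2) * Z := by
      unfold SS
      have e := hs1.tsum_add hs3
      rw [tsum_mul_left] at e
      refine (hdom.tsum_le_tsum hval (hs1.add hs3)).trans ?_
      rw [e]
      linarith
    refine h8.trans (add_le_add le_rfl ?_)
    have h9 := hlim2 a haA2
    rw [← hτ] at h9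
    have h10 := pow_le_pow_left₀ (by positivity) h9 2
    have h11 : Real.exp (-(c / 2 * Real.exp (2 * a / L.m))) ^ 2 = Real.exp (-(c * Real.exp (2 * a / L.m))) := by
      rw [← Real.exp_nat_mul]; congr 1; push_cast; ring
    have h12 : (Real.sqrt D * τ) ^ 2 = D * τ ^ 2 := by
      rw [mul_pow, Real.sq_sqrt hD0.le]
    rw [h11, h12] at h10
    refine le_trans ?_ h10
    have e : C ^ 2 * Ck ^ 2 * τ ^ 2 / c1 ^ 2 * Z = (C ^ 2 * Ck ^ 2 * Z / c1 ^ 2) * τ ^ 2 := by ring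
    rw [e]
    refine mul_le_mul_of_nonneg_right ?_ (by positivity)
    rw [hD]; linarith

omit L in
/-- **job EXG-RATEL** -/
theorem rateLG : Q286.XG.S_RateLG := by
  intro L γ c hc
  have h := rateL (L := L) (Complex.I * γ) (by simp) hc
  exact h

end Pool.Agent.Q214.XG
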